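import Pool.Agent.H76.CP.Main

/-!
# Chen's theorem inside sifted sets: absolute values
-/

set_option autoImplicit false

namespace Pool.Agent.H76.CP

open Finset Pool.Agent.H76.CL

open Classical in
/-- the `n` in `(A, B]` for which `|f₀ n|` is prime, `|f₁ n|` has at most two prime factors, all of them
`≥ B ^ (1 / 9)`, which lie in no forbidden class modulo a prime `z < p < B ^ ε` and satisfy `Q` -/
noncomputable def GoodA (f₀ f₁ : ℤ × ℤ) (T : ℕ → ℤ → Prop) (Q : ℕ → Prop) (z A B : ℕ) (ε : ℝ) : Finset ℕ :=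
  (Ioc A B).filter (fun n => (CL.val f₀ n).natAbs.Prime ∧ (CL.val f₁ n).natAbs.primeFactorsList.length ≤ 2 ∧
    (∀ p : ℕ, p.Prime → (p : ℤ) ∣ CL.val f₁ n → (B : ℝ) ^ (1 / 9 : ℝ) ≤ p) ∧
    (∀ p : ℕ, p.Prime → z < p → (p : ℝ) < (B : ℝ) ^ ε → ¬ T p n) ∧ Q n)

theorem mem_Good {f₀ f₁ : ℤ × ℤ} {T : ℕ → ℤ → Prop} {Q : ℕ → Prop} {N z A B n : ℕ} {ε : ℝ} :
    n ∈ Good f₀ f₁ T Q N z A B ε ↔ (A < n ∧ n ≤ B) ∧ (CL.val f₀ n).toNat.Prime ∧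
    (CL.val f₁ n).toNat.primeFactorsList.length ≤ 2 ∧
    (∀ p : ℕ, p.Prime → (p : ℤ) ∣ CL.val f₁ n → (N : ℝ) ^ (1 / 4 : ℝ) ≤ p) ∧
    (∀ p : ℕ, p.Prime → z < p → (p : ℝ) < (N : ℝ) ^ ε → ¬ T p n) ∧ Q n := by
  classical
  unfold Good
  rw [mem_filter, mem_Ioc]

theorem mem_GoodA {f₀ f₁ : ℤ × ℤ} {T : ℕ → ℤ → Prop} {Q : ℕ → Prop} {z A B n : ℕ} {ε : ℝ} :
    n ∈ GoodA f₀ f₁ T Q z A B ε ↔ (A < n ∧ n ≤ B) ∧ (CL.val f₀ n).natAbs.Prime ∧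
    (CL.val f₁ n).natAbs.primeFactorsList.length ≤ 2 ∧
    (∀ p : ℕ, p.Prime → (p : ℤ) ∣ CL.val f₁ n → (B : ℝ) ^ (1 / 9 : ℝ) ≤ p) ∧
    (∀ p : ℕ, p.Prime → z < p → (p : ℝ) < (B : ℝ) ^ ε → ¬ T p n) ∧ Q n := by
  classical
  unfold GoodA
  rw [mem_filter, mem_Ioc]

theorem Dat.flip {f₀ f₁ : ℤ × ℤ} {T : ℕ → ℤ → Prop} {z κ : ℕ} (h : Dat f₀ f₁ T z κ) {s₀ s₁ : ℤ}
    (hs₀ : s₀ = 1 ∨ s₀ = -1) (hs₁ : s₁ = 1 ∨ s₁ = -1) : Dat (flip s₀ f₀) (flip s₁ f₁) T z κ := by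
  refine ⟨h.per, fun p hp hz => ?_, fun p hp hz n hn => ?_, h.dim⟩
  · obtain ⟨h1, h2⟩ := h.nd p hp hz
    constructor
    · show ¬ (p : ℤ) ∣ s₀ * f₀.1
      rwa [sgn_dvd hs₀]
    · show ¬ (p : ℤ) ∣ s₁ * f₁.1
      rwa [sgn_dvd hs₁]
  · apply h.rt p hp hz n
    rw [val_flip, val_flip, sgn_dvd hs₀, sgn_dvd hs₁] at hn
    exact hn

open Classical in
/-- **Chen's theorem inside sifted sets.**  For any two linear forms and any forbidden classes modulo the primes `> z`,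
at most `κ + 1` of them and among them the zeros of the forms. -/
theorem chen_TA (κ K : ℕ) (hκ : 1 ≤ κ) (hK1 : 1 ≤ K) (θ : ℝ) (hθ : 0 < θ) :
    ∃ z : ℕ, K + 2 * κ + 4 ≤ z ∧ ∃ ε c : ℝ, 0 < ε ∧ 0 < c ∧ ∃ B₀ : ℕ, ∀ B : ℕ, B₀ ≤ B →
      ∀ A : ℕ, (A : ℝ) + θ * B ≤ B →
      ∀ (f₀ f₁ : ℤ × ℤ) (T : ℕ → ℤ → Prop) (r : ℕ), Dat f₀ f₁ T z κ →
      (f₀.1 ≠ 0 ∧ |f₀.1| ≤ K) → (f₁.1 ≠ 0 ∧ |f₁.1| ≤ K) → |f₀.2| ≤ K * B → |f₁.2| ≤ K * B →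
      f₀.1 * f₁.2 - f₁.1 * f₀.2 ≠ 0 →
      (∀ p : ℕ, p.Prime → p ≤ z → ¬ (p : ℤ) ∣ CL.val f₀ r ∧ ¬ (p : ℤ) ∣ CL.val f₁ r) →
      c * B / Real.log B ^ (κ + 1) ≤
        ((GoodA f₀ f₁ T (fun n => ((primorial z : ℕ) : ℤ) ∣ (n : ℤ) - r) z A B ε).card : ℝ) ∧
      c * B * ST T B ≤
        ((GoodA f₀ f₁ T (fun n => ((primorial z : ℕ) : ℤ) ∣ (n : ℤ) - r) z A B ε).card : ℝ) := by
  obtain ⟨θ₁, hθ₁0, hθ₁θ, hθ₁1⟩ : ∃ θ₁ : ℝ, 0 < θ₁ ∧ θ₁ ≤ θ ∧ θ₁ ≤ 1 :=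
    ⟨min θ 1, lt_min hθ one_pos, min_le_left _ _, min_le_right _ _⟩
  set K' : ℕ := K + K * ⌈7 / θ₁⌉₊ with hK'
  have hKK' : K ≤ K' := by
    rw [hK']
    have : 0 ≤ K * ⌈7 / θ₁⌉₊ := Nat.zero_le _
    omega
  obtain ⟨z, hz, ε, c, hε0, hε1, hc, B₀, hB₀⟩ := chen_T κ K' hκ (by omega) (θ₁ / 40) (by positivity) (by linarith)
  have hθ7 : 0 < θ₁ / 7 := by positivity
  obtain ⟨B₁, hB₁⟩ := pw_low hθ7 (1 / 9) (1 / 8) (by norm_num) (by norm_num)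
  obtain ⟨B₂, hB₂⟩ := pw_low hθ7 (ε / 3) (ε / 2) (by positivity) (by linarith)
  refine ⟨z, by omega, ε / 3, c * (θ₁ / 7), by positivity, by positivity,
    B₁ + B₂ + ⌈(42 + B₀) * (7 / θ₁) ^ 2⌉₊ + 16, ?_⟩
  intro B hB A hAB f₀ f₁ T r hDat hf₀ hf₁ hb₀ hb₁ hD hr
  have hBr : (42 + B₀) * (7 / θ₁) ^ 2 ≤ B := by
    have h1 : (⌈(42 + B₀) * (7 / θ₁) ^ 2⌉₊ : ℝ) ≤ B := by
      exact_mod_cast (by omega : ⌈(42 + (B₀ : ℝ)) * (7 / θ₁) ^ 2⌉₊ ≤ B)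
    exact (Nat.le_ceil _).trans h1
  have h7 : (7 : ℝ) ≤ 7 / θ₁ := by
    rw [le_div_iff₀ hθ₁0]
    linarith
  have hB₀r : (0 : ℝ) ≤ B₀ := Nat.cast_nonneg _
  have hB0 : (0 : ℝ) < B := lt_of_lt_of_le (by positivity) hBr
  -- the length of the pieces
  set q : ℕ := ⌊θ₁ * B / 6⌋₊ with hq
  have hq1 : (q : ℝ) ≤ θ₁ * B / 6 := Nat.floor_le (by positivity)
  have hθB : (42 + B₀) * (7 / θ₁) * 7 ≤ θ₁ * B := by
    have h1 := mul_le_mul_of_nonneg_left hBr hθ₁0.le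
    have e : θ₁ * ((42 + B₀) * (7 / θ₁) ^ 2) = (42 + B₀) * (7 / θ₁) * 7 := by
      field_simp
    linarith
  have hbig : (42 + B₀ : ℝ) * 7 * 7 ≤ θ₁ * B := by
    refine le_trans ?_ hθB
    nlinarith
  have hq2 : θ₁ / 7 * B ≤ q := by
    have h1 := Nat.lt_floor_add_one (θ₁ * B / 6)
    rw [← hq] at h1
    linarith
  have hq7 : (7 / θ₁ : ℝ) ≤ q := by
    refine le_trans ?_ hq2
    nlinarith
  have hqpos : (0 : ℝ) < q := by linarith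
  set δ : ℝ := q / 4 with hδ
  have hδ0 : 0 < δ := by positivity
  obtain ⟨t, ht, hz₀, hz₁⟩ := piece (z₀ := -(f₀.2 : ℝ) / f₀.1) (z₁ := -(f₁.2 : ℝ) / f₁.1) (A := (A : ℝ))
    (q := (q : ℝ)) (δ := δ) (by rw [hδ]; linarith)
  have hval : ∀ f : ℤ × ℤ, f.1 ≠ 0 → ∀ n : ℤ, (CL.val f n : ℝ) = f.1 * (n - -(f.2 : ℝ) / f.1) := by
    intro f hf n
    have : (f.1 : ℝ) ≠ 0 := by exact_mod_cast hf
    unfold CL.val
    push_cast
    field_simp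
    ring
  have habs1 : ∀ f : ℤ × ℤ, f.1 ≠ 0 → (1 : ℝ) ≤ |(f.1 : ℝ)| := by
    intro f hf
    have : (1 : ℤ) ≤ |f.1| := Int.one_le_abs hf
    exact_mod_cast this
  obtain ⟨s₀, hs₀, hs₀'⟩ := away (habs1 f₀ hf₀.1) hδ0 hz₀
  obtain ⟨s₁, hs₁, hs₁'⟩ := away (habs1 f₁ hf₁.1) hδ0 hz₁
  set A' : ℕ := A + 2 * t * q with hA'
  set B' : ℕ := A + (2 * t + 1) * q with hB'
  have hA'r : (A' : ℝ) = A + 2 * t * q := by rw [hA']; push_cast; ring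
  have hB'r : (B' : ℝ) = A + (2 * t + 1) * q := by rw [hB']; push_cast; ring
  have htr : (t : ℝ) ≤ 2 := by exact_mod_cast ht
  have hqB' : (q : ℝ) ≤ B' := by
    rw [hB'r]
    have : (0 : ℝ) ≤ A := Nat.cast_nonneg _
    have h2 : (0 : ℝ) ≤ t * q := by positivity
    linarith
  have hB'B : (B' : ℝ) ≤ B := by
    rw [hB'r]
    have h1 : (2 * (t : ℝ) + 1) * q ≤ 5 * q := mul_le_mul_of_nonneg_right (by linarith) hqpos.le
    have h2 : θ₁ * B ≤ θ * B := mul_le_mul_of_nonneg_right hθ₁θ hB0.le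
    linarith
  have hB'B' : B' ≤ B := by exact_mod_cast hB'B
  have hBB' : θ₁ / 7 * B ≤ B' := hq2.trans hqB'
  have hBB'2 : (B : ℝ) ≤ 7 / θ₁ * B' := by
    have h1 := mul_le_mul_of_nonneg_left hBB' (by positivity : 0 ≤ 7 / θ₁)
    have e : 7 / θ₁ * (θ₁ / 7 * B) = B := by field_simp
    linarith
  have hB'16 : 16 ≤ B' := by
    have : (16 : ℝ) ≤ B' := by linarith
    exact_mod_cast this
  have hdet : (flip s₀ f₀).1 * (flip s₁ f₁).2 - (flip s₁ f₁).1 * (flip s₀ f₀).2 ≠ 0 := by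
    show s₀ * f₀.1 * (s₁ * f₁.2) - s₁ * f₁.1 * (s₀ * f₀.2) ≠ 0
    have e : s₀ * f₀.1 * (s₁ * f₁.2) - s₁ * f₁.1 * (s₀ * f₀.2) =
      s₀ * s₁ * (f₀.1 * f₁.2 - f₁.1 * f₀.2) := by ring
    rw [e]
    apply mul_ne_zero _ hD
    rcases hs₀ with h | h <;> rcases hs₁ with h' | h' <;> rw [h, h'] <;> norm_num
  have hKB : ∀ b : ℤ, |b| ≤ K * B → |b| ≤ K' * B' := by
    intro b hb
    refine hb.trans ?_
    have h1 : ((K : ℝ) * B) ≤ (K' : ℝ) * B' := by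
      have h2 : (7 / θ₁ : ℝ) ≤ ⌈7 / θ₁⌉₊ := Nat.le_ceil _
      have h3 : (B : ℝ) ≤ ⌈7 / θ₁⌉₊ * B' :=
        hBB'2.trans (mul_le_mul_of_nonneg_right h2 (Nat.cast_nonneg _))
      calc (K : ℝ) * B ≤ K * (⌈7 / θ₁⌉₊ * B') := mul_le_mul_of_nonneg_left h3 (Nat.cast_nonneg _)
        _ = (K * ⌈7 / θ₁⌉₊ : ℝ) * B' := by ring
        _ ≤ (K' : ℝ) * B' := by
            apply mul_le_mul_of_nonneg_right _ (Nat.cast_nonneg _)
            rw [hK']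
            push_cast
            have : (0 : ℝ) ≤ K := Nat.cast_nonneg _
            linarith
    exact_mod_cast h1
  have hposv : ∀ (f : ℤ × ℤ) (σ : ℤ), f.1 ≠ 0 → (∀ n : ℝ, (A : ℝ) + 2 * t * q < n → n ≤ A + (2 * t + 1) * q →
      δ ≤ σ * (f.1 * (n - -(f.2 : ℝ) / f.1))) → ∀ n : ℤ, A' < n → n ≤ B' →
      θ₁ / 40 * B' ≤ (CL.val (flip σ f) n : ℝ) := by
    intro f σ hf hσ n hn1 hn2
    have h1 : (A' : ℝ) < n := by exact_mod_cast hn1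
    have h2 : (n : ℝ) ≤ B' := by exact_mod_cast hn2
    rw [hA'r] at h1
    rw [hB'r] at h2
    have h3 := hσ n h1 h2
    rw [val_flip]
    push_cast
    rw [hval f hf]
    refine le_trans ?_ h3
    rw [hδ]
    have h4 : θ₁ / 40 * B' ≤ θ₁ / 40 * B := mul_le_mul_of_nonneg_left hB'B (by positivity)
    linarith
  obtain ⟨hm1, hm2⟩ := hB₀ B' (by
      have h1 : (B₀ : ℝ) ≤ B' := by linarith
      exact_mod_cast h1) A'
    (by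
      rw [hA'r]
      have h4 : θ₁ / 40 * B' ≤ θ₁ / 40 * B := mul_le_mul_of_nonneg_left hB'B (by positivity)
      rw [hB'r] at h4 ⊢
      linarith)
    (flip s₀ f₀) (flip s₁ f₁) T r (hDat.flip hs₀ hs₁)
    (by
      refine ⟨?_, ?_⟩
      · show s₀ * f₀.1 ≠ 0
        apply mul_ne_zero _ hf₀.1
        rcases hs₀ with h | h <;> rw [h] <;> norm_num
      · show |s₀ * f₀.1| ≤ K'
        rw [(sgn_abs hs₀ _).1]
        exact hf₀.2.trans (by exact_mod_cast hKK'))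
    (by
      refine ⟨?_, ?_⟩
      · show s₁ * f₁.1 ≠ 0
        apply mul_ne_zero _ hf₁.1
        rcases hs₁ with h | h <;> rw [h] <;> norm_num
      · show |s₁ * f₁.1| ≤ K'
        rw [(sgn_abs hs₁ _).1]
        exact hf₁.2.trans (by exact_mod_cast hKK'))
    (by
      show |s₀ * f₀.2| ≤ K' * B'
      rw [(sgn_abs hs₀ _).1]
      exact hKB _ hb₀)
    (by
      show |s₁ * f₁.2| ≤ K' * B'
      rw [(sgn_abs hs₁ _).1]
      exact hKB _ hb₁)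
    hdet
    (by
      intro n hn1 hn2
      exact ⟨hposv f₀ s₀ hf₀.1 hs₀' n hn1 hn2, hposv f₁ s₁ hf₁.1 hs₁' n hn1 hn2⟩)
    (by
      intro p hp hpz
      rw [val_flip, val_flip, sgn_dvd hs₀, sgn_dvd hs₁]
      exact hr p hp hpz)
  have hpow1 := hB₁ B (by omega) B' hBB'
  have hpow2 := hB₂ B (by omega) B' hBB'
  have hN := sqrt_le_N (K := K') (by omega) hB'16
  set N := Nat.sqrt (2 * K' * B') with hNd
  have hB'r0 : (0 : ℝ) ≤ B' := Nat.cast_nonneg _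
  have hpw : ∀ x : ℝ, 0 < x → (B' : ℝ) ^ (x / 2) ≤ (N : ℝ) ^ x := by
    intro x hx
    calc (B' : ℝ) ^ (x / 2) = (√(B' : ℝ)) ^ x := by
          rw [Real.sqrt_eq_rpow, ← Real.rpow_mul hB'r0]
          congr 1
          ring
      _ ≤ (N : ℝ) ^ x := Real.rpow_le_rpow (Real.sqrt_nonneg _) hN hx.le
  have h8 : (B' : ℝ) ^ (1 / 8 : ℝ) ≤ (N : ℝ) ^ (1 / 4 : ℝ) := by
    have := hpw (1 / 4) (by norm_num)
    norm_num at this
    convert this using 2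
  have hε' := hpw ε hε0
  have hsub : Good (flip s₀ f₀) (flip s₁ f₁) T (fun n => ((primorial z : ℕ) : ℤ) ∣ (n : ℤ) - r) N z A' B' ε ⊆
      GoodA f₀ f₁ T (fun n => ((primorial z : ℕ) : ℤ) ∣ (n : ℤ) - r) z A B (ε / 3) := by
    intro n hn
    rw [mem_Good] at hn
    rw [mem_GoodA]
    obtain ⟨⟨a1, a2⟩, a3, a4, a5, a6, a7⟩ := hn
    have v1 := hposv f₀ s₀ hf₀.1 hs₀' n (by exact_mod_cast a1) (by exact_mod_cast a2)
    have v2 := hposv f₁ s₁ hf₁.1 hs₁' n (by exact_mod_cast a1) (by exact_mod_cast a2)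
    have htn : ∀ x : ℤ, θ₁ / 40 * B' ≤ (x : ℝ) → x.toNat = x.natAbs := by
      intro x hx
      have h1 : (0 : ℝ) ≤ x := le_trans (by positivity) hx
      have h2 : 0 ≤ x := by exact_mod_cast h1
      omega
    rw [htn _ v1, val_flip, (sgn_abs hs₀ _).2] at a3
    rw [htn _ v2, val_flip, (sgn_abs hs₁ _).2] at a4
    refine ⟨⟨?_, a2.trans hB'B'⟩, a3, a4, ?_, ?_, a7⟩
    · have : A ≤ A' := Nat.le_add_right _ _
      omega
    · intro p hp hd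
      refine (hpow1.trans h8).trans (a5 p hp ?_)
      rw [val_flip, sgn_dvd hs₁]
      exact hd
    · intro p hp hzp hlt
      exact a6 p hp hzp (hlt.trans_le (hpow2.trans hε'))
  have hle : ((Good (flip s₀ f₀) (flip s₁ f₁) T (fun n => ((primorial z : ℕ) : ℤ) ∣ (n : ℤ) - r) N z A' B' ε).card : ℝ) ≤
      ((GoodA f₀ f₁ T (fun n => ((primorial z : ℕ) : ℤ) ∣ (n : ℤ) - r) z A B (ε / 3)).card : ℝ) := by
    exact_mod_cast card_le_card hsub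
  have hB'4 : (7 : ℝ) ≤ B' := h7.trans (hq7.trans hqB')
  have hlB' : 0 < Real.log B' := Real.log_pos (by linarith)
  have hll : Real.log B' ≤ Real.log B := Real.log_le_log (by linarith) hB'B
  constructor
  · refine le_trans ?_ (hm1.trans hle)
    calc c * (θ₁ / 7) * B / Real.log B ^ (κ + 1) = c * (θ₁ / 7 * B) / Real.log B ^ (κ + 1) := by ring
      _ ≤ c * B' / Real.log B' ^ (κ + 1) := by
          apply div_le_div₀ (by positivity) (mul_le_mul_of_nonneg_left hBB' hc.le) (by positivity)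
          exact pow_le_pow_left₀ hlB'.le hll (κ + 1)
  · refine le_trans ?_ (hm2.trans hle)
    calc c * (θ₁ / 7) * B * ST T B = c * (θ₁ / 7 * B) * ST T B := by ring
      _ ≤ c * B' * ST T B' :=
          mul_le_mul (mul_le_mul_of_nonneg_left hBB' hc.le) (ST_anti T hB'B') (ST_nonneg T B) (by positivity)

end Pool.Agent.H76.CP
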