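import Pool.Agent.H76.CL.Abs

/-!
# Chen's theorem inside sifted sets: the local data

`T p n` says that the class of `n` modulo `p` is forbidden.
-/

set_option autoImplicit false

namespace Pool.Agent.H76.CP

open Finset Filter Pool.Agent.W23.DC Pool.Agent.Y660.RP Pool.Agent.Y843.CH Pool.Agent.H76.CL

open Classical in
/-- the forbidden classes -/
noncomputable def rtT (T : ℕ → ℤ → Prop) (p : ℕ) : Finset ℕ := (range p).filter (fun m : ℕ => T p m)

/-- two linear forms and a system of forbidden classes, at most `κ + 1` of them, which contains the zeros of the two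
forms, for all primes `p > z` -/
structure Dat (f₀ f₁ : ℤ × ℤ) (T : ℕ → ℤ → Prop) (z κ : ℕ) : Prop where
  per : ∀ (p : ℕ) (m n : ℤ), (p : ℤ) ∣ m - n → (T p m ↔ T p n)
  nd : ∀ p : ℕ, p.Prime → z < p → ¬ (p : ℤ) ∣ f₀.1 ∧ ¬ (p : ℤ) ∣ f₁.1
  rt : ∀ p : ℕ, p.Prime → z < p → ∀ n : ℤ, (p : ℤ) ∣ val f₀ n ∨ (p : ℤ) ∣ val f₁ n → T p n
  dim : ∀ p : ℕ, p.Prime → z < p → (rtT T p).card ≤ κ + 1

theorem Dat.symm {f₀ f₁ : ℤ × ℤ} {T : ℕ → ℤ → Prop} {z κ : ℕ} (h : Dat f₀ f₁ T z κ) : Dat f₁ f₀ T z κ :=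
  ⟨h.per, fun p hp hz => (h.nd p hp hz).symm, fun p hp hz n hn => h.rt p hp hz n hn.symm, h.dim⟩

open Classical in
/-- the residue classes of `f n` modulo `p`, for the `n` in a forbidden class, except the class `0` -/
noncomputable def clT (f : ℤ × ℤ) (T : ℕ → ℤ → Prop) (p : ℕ) : Finset ℕ :=
  (range p).filter (fun c => c ≠ 0 ∧ ∃ n : ℤ, (p : ℤ) ∣ val f n - c ∧ T p n)

theorem mem_clT {f : ℤ × ℤ} {T : ℕ → ℤ → Prop} (hT : ∀ (p : ℕ) (m n : ℤ), (p : ℤ) ∣ m - n → (T p m ↔ T p n))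
    {p w : ℕ} {n : ℤ} (hp : p.Prime) (hf : ¬ (p : ℤ) ∣ f.1)
    (hw : (w : ℤ) = val f n) : w % p ∈ clT f T p ↔ ¬ p ∣ w ∧ T p n := by
  classical
  have hpp : Prime (p : ℤ) := Nat.prime_iff_prime_int.1 hp
  have hwm : (p : ℤ) ∣ (w : ℤ) - ((w % p : ℕ) : ℤ) := by
    have h1 : (w : ℤ) - ((w % p : ℕ) : ℤ) = (p : ℤ) * ((w / p : ℕ) : ℤ) := by
      have := Nat.mod_add_div w p
      have h2 : ((w % p : ℕ) : ℤ) + (p : ℤ) * ((w / p : ℕ) : ℤ) = (w : ℤ) := by exact_mod_cast this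
      linarith
    rw [h1]
    exact dvd_mul_right _ _
  unfold clT
  rw [mem_filter, mem_range]
  constructor
  · rintro ⟨-, h1, n', h2, h3⟩
    refine ⟨fun h => h1 (Nat.mod_eq_zero_of_dvd h), ?_⟩
    have h4 : (p : ℤ) ∣ val f n' - val f n := by
      rw [← hw]
      have := dvd_sub h2 hwm
      have e : val f n' - ((w % p : ℕ) : ℤ) - ((w : ℤ) - ((w % p : ℕ) : ℤ)) = val f n' - w := by ring
      rwa [e] at this
    rw [val_sub] at h4
    exact (hT p _ _ ((hpp.dvd_or_dvd h4).resolve_left hf)).1 h3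
  · rintro ⟨h1, h2⟩
    refine ⟨Nat.mod_lt _ hp.pos, fun h => h1 (Nat.dvd_of_mod_eq_zero h), n, ?_, h2⟩
    rw [← hw]
    exact hwm

theorem clT_lt {f : ℤ × ℤ} {T : ℕ → ℤ → Prop} {p c : ℕ} (hc : c ∈ clT f T p) : c < p ∧ c ≠ 0 := by
  classical
  unfold clT at hc
  rw [mem_filter, mem_range] at hc
  exact ⟨hc.1, hc.2.1⟩

/-- the number of the classes -/
theorem card_clT {f : ℤ × ℤ} {T : ℕ → ℤ → Prop} (hT : ∀ (p : ℕ) (m n : ℤ), (p : ℤ) ∣ m - n → (T p m ↔ T p n))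
    {p : ℕ} (hp : p.Prime) (hf : ¬ (p : ℤ) ∣ f.1) (hr : ∀ n : ℤ, (p : ℤ) ∣ val f n → T p n) :
    (clT f T p).card + 1 = (rtT T p).card := by
  classical
  have hp0 : (0 : ℤ) < p := by exact_mod_cast hp.pos
  set φ : ℕ → ℕ := fun m => (val f m % (p : ℤ)).toNat with hφ
  have hφ1 : ∀ m : ℕ, ((φ m : ℕ) : ℤ) = val f m % (p : ℤ) := fun m =>
    Int.toNat_of_nonneg (Int.emod_nonneg _ hp0.ne')
  have hφ2 : ∀ m : ℕ, (p : ℤ) ∣ val f m - (φ m : ℕ) := by
    intro m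
    rw [hφ1]
    exact Int.dvd_self_sub_emod
  have hφ3 : ∀ m : ℕ, φ m < p := by
    intro m
    have := Int.emod_lt_of_pos (val f m) hp0
    rw [← hφ1] at this
    exact_mod_cast this
  have hinj : Set.InjOn φ (rtT T p) := by
    intro m hm m' hm' he
    rw [mem_coe, rtT, mem_filter, mem_range] at hm hm'
    have h1 := hφ2 m
    have h2 := hφ2 m'
    rw [← he] at h2
    exact root_unique hp hf hm.1 hm'.1 h1 h2
  have himg : (rtT T p).image φ = insert 0 (clT f T p) := by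
    ext c
    rw [mem_image, mem_insert]
    constructor
    · rintro ⟨m, hm, rfl⟩
      rw [rtT, mem_filter, mem_range] at hm
      obtain ⟨h1, h2⟩ := hm
      by_cases h0 : φ m = 0
      · exact Or.inl h0
      · right
        unfold clT
        rw [mem_filter, mem_range]
        exact ⟨hφ3 m, h0, m, hφ2 m, h2⟩
    · rintro (rfl | hc)
      · obtain ⟨m, h1, h2⟩ := exists_root hp hf
        refine ⟨m, ?_, ?_⟩
        · rw [rtT, mem_filter, mem_range]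
          exact ⟨h1, hr m h2⟩
        · have h3 : val f m % (p : ℤ) = 0 := Int.emod_eq_zero_of_dvd h2
          show (val f m % (p : ℤ)).toNat = 0
          rw [h3]
          rfl
      · unfold clT at hc
        rw [mem_filter, mem_range] at hc
        obtain ⟨h1, h2, n, h3, h4⟩ := hc
        have hn0 : 0 ≤ n % (p : ℤ) := Int.emod_nonneg _ hp0.ne'
        have hn1 : n % (p : ℤ) < p := Int.emod_lt_of_pos _ hp0
        have hn2 : (p : ℤ) ∣ (((n % (p : ℤ)).toNat : ℕ) : ℤ) - n := by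
          rw [Int.toNat_of_nonneg hn0]
          have := Int.dvd_self_sub_emod (x := n) (m := (p : ℤ))
          have e : n % (p : ℤ) - n = -(n - n % (p : ℤ)) := by ring
          rw [e]
          exact this.neg_right
        refine ⟨(n % (p : ℤ)).toNat, ?_, ?_⟩
        · rw [rtT, mem_filter, mem_range]
          exact ⟨by omega, (hT p _ _ hn2).2 h4⟩
        · have h5 : (p : ℤ) ∣ val f (((n % (p : ℤ)).toNat : ℕ) : ℤ) - val f n := by
            rw [val_sub]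
            exact hn2.mul_left _
          have h6 := hφ2 (n % (p : ℤ)).toNat
          have h7 := hφ3 (n % (p : ℤ)).toNat
          have h8 := dvd_sub (dvd_add h5 h3) h6
          have e : val f (((n % (p : ℤ)).toNat : ℕ) : ℤ) - val f n + (val f n - c) -
            (val f (((n % (p : ℤ)).toNat : ℕ) : ℤ) - ((φ (n % (p : ℤ)).toNat : ℕ) : ℤ)) =
            ((φ (n % (p : ℤ)).toNat : ℕ) : ℤ) - c := by ring
          rw [e] at h8
          obtain ⟨k, hk⟩ := h8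
          have : k = 0 := by
            by_contra hk0
            rcases lt_or_gt_of_ne hk0 with h5 | h5
            · nlinarith
            · nlinarith
          subst this
          omega
  have h0 : (0 : ℕ) ∉ clT f T p := fun h => (clT_lt h).2 rfl
  rw [← card_image_of_injOn hinj, himg, card_insert_of_notMem h0]

/-- the forbidden classes of the values of `f` -/
noncomputable def cl (f : ℤ × ℤ) (T : ℕ → ℤ → Prop) (g : ℤ × ℤ) (N : ℕ) (ε : ℝ) (p : ℕ) : Finset ℕ :=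
  if (p : ℝ) < (N : ℝ) ^ ε then clT f T p else clF f {g} p

/-- the density of the forbidden classes -/
noncomputable def gg (f : ℤ × ℤ) (T : ℕ → ℤ → Prop) (g : ℤ × ℤ) (N : ℕ) (ε : ℝ) (p : ℕ) : ℝ :=
  ((cl f T g N ε p).card : ℝ) / ((p : ℝ) - 1)

theorem card_cl_le {f g : ℤ × ℤ} {T : ℕ → ℤ → Prop} {z κ : ℕ} (hκ : 1 ≤ κ) (hD : Dat f g T z κ) {N : ℕ} {ε : ℝ}
    {p : ℕ} (hp : p.Prime) (hz : z < p) : (cl f T g N ε p).card ≤ κ := by
  classical
  obtain ⟨h1, h2⟩ := hD.nd p hp hz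
  unfold cl
  split_ifs
  · have h3 := card_clT hD.per hp h1 (fun n hn => hD.rt p hp hz n (Or.inl hn))
    have h4 := hD.dim p hp hz
    omega
  · refine (card_clF_le (G := {g}) hp h1 ?_).trans ?_
    · intro g' hg'
      rw [mem_singleton] at hg'
      rw [hg']
      exact h2
    · rw [card_singleton]
      exact hκ

theorem cl_ne_zero {f g : ℤ × ℤ} {T : ℕ → ℤ → Prop} {N : ℕ} {ε : ℝ} {p : ℕ} :
    ∀ c ∈ cl f T g N ε p, c < p ∧ c ≠ 0 := by
  intro c hc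
  unfold cl at hc
  split_ifs at hc
  · exact clT_lt hc
  · exact clF_lt hc

theorem gg_Dg {f g : ℤ × ℤ} {T : ℕ → ℤ → Prop} {z κ : ℕ} (hκ : 1 ≤ κ) (hD : Dat f g T z κ)
    {N : ℕ} {ε : ℝ} (hzN : (z : ℝ) < (N : ℝ) ^ ε) :
    Dg κ z ((N : ℝ) ^ ε) (f.1 * g.2 - g.1 * f.2).natAbs (gg f T g N ε) := by
  refine ⟨fun p hp hz => ?_, fun p hp hw => ?_⟩
  · have h2 : (2 : ℝ) ≤ p := by exact_mod_cast hp.two_le
    have h1 : (0 : ℝ) < (p : ℝ) - 1 := by linarith
    unfold gg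
    refine ⟨by positivity, ?_⟩
    apply div_le_div_of_nonneg_right _ h1.le
    exact_mod_cast card_cl_le hκ hD hp hz
  · have hz : z < p := by
      have : (z : ℝ) < p := by linarith
      exact_mod_cast this
    obtain ⟨h1, h2⟩ := hD.nd p hp hz
    unfold gg cl
    rw [if_neg (not_lt.2 hw), card_clF_single hp h1 h2]
    split_ifs
    · simp
    · simp

/-- the densities of the two problems agree -/
theorem gg_symm {f₀ f₁ : ℤ × ℤ} {T : ℕ → ℤ → Prop} {z κ : ℕ} (hD : Dat f₀ f₁ T z κ) {N : ℕ}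
    {ε : ℝ} {p : ℕ} (hp : p.Prime) (hz : z < p) (hw : (p : ℝ) < (N : ℝ) ^ ε) :
    gg f₁ T f₀ N ε p = gg f₀ T f₁ N ε p := by
  unfold gg cl
  rw [if_pos hw, if_pos hw]
  obtain ⟨g1, g2⟩ := hD.nd p hp hz
  have h1 := card_clT hD.per hp g1 (fun n hn => hD.rt p hp hz n (Or.inl hn))
  have h2 := card_clT hD.per hp g2 (fun n hn => hD.rt p hp hz n (Or.inr hn))
  have : (clT f₁ T p).card = (clT f₀ T p).card := by omega
  rw [this]

theorem prod_cl_le {f g : ℤ × ℤ} {T : ℕ → ℤ → Prop} {z κ : ℕ} (hκ : 1 ≤ κ) (hD : Dat f g T z κ)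
    {N : ℕ} {ε : ℝ} (q : ℕ) (hz : ∀ p ∈ q.primeFactors, z < p) :
    ∏ p ∈ q.primeFactors, ((cl f T g N ε p).card : ℝ) ≤ (κ : ℝ) ^ q.primeFactors.card := by
  rw [← prod_const]
  apply Finset.prod_le_prod
  · intro p _
    positivity
  · intro p hp
    exact_mod_cast card_cl_le hκ hD (Nat.prime_of_mem_primeFactors hp) (hz p hp)

/-- **The remainder terms.** -/
theorem Rr_le {ι : Type} [DecidableEq ι] (Ω : Finset ι) (w : ι → ℕ) {f g : ℤ × ℤ} {T : ℕ → ℤ → Prop}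
    {z κ : ℕ} (hκ : 1 ≤ κ) (hD : Dat f g T z κ) {N : ℕ} {ε : ℝ} (m₀ a : ℕ) (hm₀ : 0 < m₀)
    (ha : a.Coprime m₀) (hm : ∀ p : ℕ, p.Prime → z < p → ¬ p ∣ m₀) (q : ℕ) (hq : Squarefree q)
    (hz : ∀ p ∈ q.primeFactors, z < p) (hN : q ≤ N) (U E : ℝ)
    (hE : ∀ c : ℕ, c < m₀ * q → c.Coprime (m₀ * q) →
      |((Ω.filter (fun i => w i ≡ c [MOD (m₀ * q)])).card : ℝ) - U / (Nat.totient (m₀ * q) : ℝ)| ≤ E) :
    Rr (Ω.filter (fun i => w i ≡ a [MOD m₀])) (fun i => vw (cl f T g N ε) N z (w i)) (gg f T g N ε)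
      (U / (Nat.totient m₀ : ℝ)) q ≤ (κ : ℝ) ^ q.primeFactors.card * E := by
  classical
  have hprod : ∏ p ∈ q.primeFactors, p = q := Nat.prod_primeFactors_of_squarefree hq
  have hE0 : 0 ≤ E := by
    have h1 : 0 < m₀ * q := Nat.mul_pos hm₀ (Nat.pos_of_ne_zero hq.ne_zero)
    rcases Nat.lt_or_ge 1 (m₀ * q) with h2 | h2
    · exact (abs_nonneg _).trans (hE 1 h2 (Nat.coprime_one_left _))
    · have h3 : m₀ * q = 1 := by omega
      exact (abs_nonneg _).trans (hE 0 h1 (by rw [h3]; exact Nat.coprime_one_right _))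
  have key := cls Ω w q.primeFactors (fun p hp => Nat.prime_of_mem_primeFactors hp) (cl f T g N ε)
    (fun p _ => cl_ne_zero) m₀ a hm₀ ha
    (fun p hp => hm p (Nat.prime_of_mem_primeFactors hp) (hz p hp)) U E
    (by rw [hprod]; exact hE)
  unfold Rr
  rw [filter_filter]
  have e1 : (Ω.filter (fun i => w i ≡ a [MOD m₀] ∧ q ∣ vw (cl f T g N ε) N z (w i))) =
      Ω.filter (fun i => w i ≡ a [MOD m₀] ∧ ∀ p ∈ q.primeFactors, w i % p ∈ cl f T g N ε p) := by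
    apply filter_congr
    intro i _
    rw [sqf_dvd_vw hq hz hN]
  have e2 : gp (gg f T g N ε) q = ∏ p ∈ q.primeFactors, (((cl f T g N ε p).card : ℝ) / ((p : ℝ) - 1)) := by
    conv_lhs => rw [← hprod]
    rw [gp_prod _ _ (fun p hp => Nat.prime_of_mem_primeFactors hp)]
    rfl
  rw [e2]
  have e3 : (((Ω.filter (fun i => w i ≡ a [MOD m₀] ∧ q ∣ vw (cl f T g N ε) N z (w i))).card : ℕ) : ℝ) =
      (((Ω.filter (fun i => w i ≡ a [MOD m₀] ∧ ∀ p ∈ q.primeFactors, w i % p ∈ cl f T g N ε p)).card : ℕ) : ℝ) := by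
    rw [e1]
  rw [e3]
  refine key.trans ?_
  exact mul_le_mul_of_nonneg_right (prod_cl_le hκ hD q hz) hE0

/-- the density of the integers in no forbidden class modulo a prime `≤ B` -/
noncomputable def ST (T : ℕ → ℤ → Prop) (B : ℕ) : ℝ :=
  ∏ p ∈ (Icc 1 B).filter Nat.Prime, (1 - ((rtT T p).card : ℝ) / p)

theorem rtT_factor (T : ℕ → ℤ → Prop) {p : ℕ} (hp : p.Prime) :
    0 ≤ 1 - ((rtT T p).card : ℝ) / p ∧ 1 - ((rtT T p).card : ℝ) / p ≤ 1 := by
  classical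
  have hp0 : (0 : ℝ) < p := by exact_mod_cast hp.pos
  have h1 : (rtT T p).card ≤ p := by
    have := card_le_card (filter_subset (fun m : ℕ => T p m) (range p))
    rwa [card_range] at this
  have h2 : ((rtT T p).card : ℝ) ≤ p := by exact_mod_cast h1
  constructor
  · rw [sub_nonneg, div_le_one hp0]
    exact h2
  · have : 0 ≤ ((rtT T p).card : ℝ) / p := by positivity
    linarith

theorem ST_nonneg (T : ℕ → ℤ → Prop) (B : ℕ) : 0 ≤ ST T B := by
  apply prod_nonneg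
  intro p hp
  exact (rtT_factor T (mem_filter.1 hp).2).1

/-- the product over fewer primes is larger -/
theorem ST_le (T : ℕ → ℤ → Prop) (B : ℕ) (S : Finset ℕ) (hS : ∀ p ∈ S, p.Prime ∧ p ≤ B) :
    ST T B ≤ ∏ p ∈ S, (1 - ((rtT T p).card : ℝ) / p) := by
  have hsub : S ⊆ (Icc 1 B).filter Nat.Prime := by
    intro p hp
    obtain ⟨h1, h2⟩ := hS p hp
    rw [mem_filter, mem_Icc]
    exact ⟨⟨h1.pos, h2⟩, h1⟩
  unfold ST
  rw [← Finset.prod_sdiff hsub]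
  apply mul_le_of_le_one_left
  · exact prod_nonneg fun p hp => (rtT_factor T (hS p hp).1).1
  · apply prod_le_one
    · intro p hp
      exact (rtT_factor T (mem_filter.1 (Finset.mem_sdiff.1 hp).1).2).1
    · intro p hp
      exact (rtT_factor T (mem_filter.1 (Finset.mem_sdiff.1 hp).1).2).2

theorem ST_anti (T : ℕ → ℤ → Prop) {B n : ℕ} (h : B ≤ n) : ST T n ≤ ST T B := by
  refine (ST_le T n ((Icc 1 B).filter Nat.Prime) ?_).trans le_rfl
  intro p hp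
  rw [mem_filter, mem_Icc] at hp
  exact ⟨hp.2, hp.1.2.trans h⟩

/-- the product of the densities in terms of the singular series -/
theorem V_ser (z κ : ℕ) (hz : 2 ≤ z) (ε : ℝ) (hε : 0 < ε) (hε1 : ε ≤ 1) : ∃ c : ℝ, 0 < c ∧ ∃ N₀ : ℕ,
    ∀ N : ℕ, N₀ ≤ N → ∀ B : ℕ, N ≤ B → ∀ (f₀ f₁ : ℤ × ℤ) (T : ℕ → ℤ → Prop), Dat f₀ f₁ T z κ →
    c * Real.log N * ST T B ≤ ∏ p ∈ P1 N z ε, (1 - gg f₀ T f₁ N ε p) := by
  obtain ⟨c, hc, N₀, hN₀⟩ := mert z hz ε hε hε1
  refine ⟨c, hc, N₀ + 2, ?_⟩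
  intro N hN B hNB f₀ f₁ T hD
  have h1 := hN₀ N (by omega)
  have hlN : 0 < Real.log N := Real.log_pos (by exact_mod_cast (by omega : 1 < N))
  have h2 := ST_le T B (P1 N z ε) (fun p hp => by
    obtain ⟨⟨a1, a2⟩, a3, a4⟩ := mem_P1.1 hp
    exact ⟨a3, by omega⟩)
  have h7 : ∀ p ∈ P1 N z ε, ((rtT T p).card : ℝ) = ((clT f₀ T p).card : ℝ) + 1 := by
    intro p hp
    obtain ⟨⟨a1, a2⟩, a3, a4⟩ := mem_P1.1 hp
    rw [← card_clT hD.per a3 (hD.nd p a3 a1).1 (fun n hn => hD.rt p a3 a1 n (Or.inl hn))]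
    push_cast
    ring
  have h3 : ∏ p ∈ P1 N z ε, (1 - ((rtT T p).card : ℝ) / p) =
      (∏ p ∈ P1 N z ε, (1 - 1 / (p : ℝ))) * ∏ p ∈ P1 N z ε, (1 - gg f₀ T f₁ N ε p) := by
    rw [← prod_mul_distrib]
    apply prod_congr rfl
    intro p hp
    obtain ⟨⟨a1, a2⟩, a3, a4⟩ := mem_P1.1 hp
    have hp2 : (2 : ℝ) ≤ p := by exact_mod_cast a3.two_le
    have h5 : (p : ℝ) - 1 ≠ 0 := by linarith
    have h6 : (p : ℝ) ≠ 0 := by linarith
    unfold gg cl
    rw [if_pos a4, h7 p hp]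
    field_simp
    ring
  have h8 : 0 ≤ ∏ p ∈ P1 N z ε, (1 - gg f₀ T f₁ N ε p) := by
    apply prod_nonneg
    intro p hp
    obtain ⟨⟨a1, a2⟩, a3, a4⟩ := mem_P1.1 hp
    have hp2 : (2 : ℝ) ≤ p := by exact_mod_cast a3.two_le
    have h9 := (rtT_factor T a3).1
    rw [sub_nonneg, div_le_one (by linarith), h7 p hp] at h9
    unfold gg cl
    rw [if_pos a4, sub_nonneg, div_le_one (by linarith)]
    linarith
  calc c * Real.log N * ST T B ≤ c * Real.log N * ((∏ p ∈ P1 N z ε, (1 - 1 / (p : ℝ))) *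
        ∏ p ∈ P1 N z ε, (1 - gg f₀ T f₁ N ε p)) := by
        rw [← h3]
        exact mul_le_mul_of_nonneg_left h2 (by positivity)
    _ = (c * Real.log N * ∏ p ∈ P1 N z ε, (1 - 1 / (p : ℝ))) *
        ∏ p ∈ P1 N z ε, (1 - gg f₀ T f₁ N ε p) := by ring
    _ ≤ 1 * ∏ p ∈ P1 N z ε, (1 - gg f₀ T f₁ N ε p) := mul_le_mul_of_nonneg_right h1 h8
    _ = _ := one_mul _

end Pool.Agent.H76.CP
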