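import Pool.Agent.H76.CP.Base

/-!
# Chen's theorem inside sifted sets: the combinatorial part
-/

set_option autoImplicit false

namespace Pool.Agent.H76.CP

open Finset Filter Pool.Agent.W23.DC Pool.Agent.Y660.RP Pool.Agent.Y843.CH Pool.Agent.H76.CL

/-- the sifted primes `w` -/
noncomputable def Ωs (f₀ f₁ : ℤ × ℤ) (T : ℕ → ℤ → Prop) (N z A B m₀ a₀ : ℕ) (ε : ℝ) : Finset ℕ :=
  (((Ioc A B).filter Nat.Prime).filter (fun w => w ≡ a₀ [MOD m₀])).filter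
    (fun w => ∀ p ∈ P1 N z ε, ¬ p ∣ vw (cl f₀ T f₁ N ε) N z w)

open Classical in
/-- the good integers -/
noncomputable def Good (f₀ f₁ : ℤ × ℤ) (T : ℕ → ℤ → Prop) (Q : ℕ → Prop) (N z A B : ℕ) (ε : ℝ) : Finset ℕ :=
  (Ioc A B).filter (fun n => (val f₀ n).toNat.Prime ∧ (val f₁ n).toNat.primeFactorsList.length ≤ 2 ∧
    (∀ p : ℕ, p.Prime → (p : ℤ) ∣ val f₁ n → (N : ℝ) ^ (1 / 4 : ℝ) ≤ p) ∧
    (∀ p : ℕ, p.Prime → z < p → (p : ℝ) < (N : ℝ) ^ ε → ¬ T p n) ∧ Q n)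

open Classical in
/-- the values with three prime factors -/
noncomputable def Three (f₀ f₁ : ℤ × ℤ) (T : ℕ → ℤ → Prop) (ν : ℕ → ℕ) (N z A B m₀ a₀ : ℕ) (ε : ℝ) : Finset ℕ :=
  (Ωs f₀ f₁ T N z A B m₀ a₀ ε).filter (fun w => ∃ p₁ p₂ p₃ : ℕ, p₁ ∈ pr N (1 / 4) (667 / 1000) ∧ p₂.Prime ∧
    p₃.Prime ∧ (N : ℝ) ^ (667 / 1000 : ℝ) ≤ p₂ ∧ p₂ ≤ p₃ ∧ val f₁ (ν w) = ((p₁ * (p₂ * p₃) : ℕ) : ℤ))

open Classical in
/-- **Chen's weights.** -/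
theorem comb {f₀ f₁ : ℤ × ℤ} {T : ℕ → ℤ → Prop} {Q : ℕ → Prop} {ν : ℕ → ℕ} {N z κ A B A' B' m₀ a₀ : ℕ} {ε : ℝ}
    (hN2 : 2 ≤ N) (hε1 : ε ≤ 1 / 4) (hNA : N ≤ A') (hD : Dat f₀ f₁ T z κ)
    (hν : ∀ w ∈ Ioc A' B', w ≡ a₀ [MOD m₀] → ν w ∈ Ioc A B ∧ (w : ℤ) = val f₀ (ν w) ∧
      (∀ p : ℕ, p.Prime → p ≤ z → ¬ (p : ℤ) ∣ val f₁ (ν w)) ∧ Q (ν w))
    (hzN : (z : ℝ) < (N : ℝ) ^ ε)
    (hWT : ∀ n : ℕ, 1 ≤ n → n ≤ 3 * N ^ 2 →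
      (∀ p : ℕ, p.Prime → p ∣ n → (N : ℝ) ^ (1 / 4 : ℝ) ≤ p) →
      (∀ p : ℕ, p.Prime → p ^ 2 ∣ n → (N : ℝ) ^ (667 / 1000 : ℝ) ≤ p) →
      n.primeFactorsList.length ≤ 2 ∨ 2 ≤ ((pr N (1 / 4) (667 / 1000)).filter (fun q => q ∣ n)).card ∨
      (((pr N (1 / 4) (667 / 1000)).filter (fun q => q ∣ n)).card = 1 ∧
        ∃ p₁ p₂ p₃ : ℕ, p₁ ∈ pr N (1 / 4) (667 / 1000) ∧ p₂.Prime ∧ p₃.Prime ∧
          (N : ℝ) ^ (667 / 1000 : ℝ) ≤ p₂ ∧ p₂ ≤ p₃ ∧ n = p₁ * (p₂ * p₃)))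
    (hsz : ∀ n ∈ Ioc A B, 1 ≤ val f₁ (n : ℕ) ∧ val f₁ (n : ℕ) ≤ 3 * (N : ℤ) ^ 2) :
    ∑ i ∈ Ωs f₀ f₁ T N z A' B' m₀ a₀ ε, II N ε (vw (cl f₀ T f₁ N ε) N z i) *
      (1 - 1 / 2 * ∑ q ∈ pr N (1 / 4) (667 / 1000),
        (if q ∣ vw (cl f₀ T f₁ N ε) N z i then (1 : ℝ) else 0)) ≤
    ((Good f₀ f₁ T Q N z A B ε).card : ℝ) + (Sq f₁ N A B).card +
      1 / 2 * (Three f₀ f₁ T ν N z A' B' m₀ a₀ ε).card := by
  have hNr : (1 : ℝ) < N := by exact_mod_cast (by omega : 1 < N)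
  have hNε : (N : ℝ) ^ ε ≤ (N : ℝ) ^ (1 / 4 : ℝ) := Real.rpow_le_rpow_of_exponent_le hNr.le hε1
  have hNN : ∀ x : ℝ, x ≤ 1 → (N : ℝ) ^ x ≤ N := by
    intro x hx
    calc (N : ℝ) ^ x ≤ (N : ℝ) ^ (1 : ℝ) := Real.rpow_le_rpow_of_exponent_le hNr.le hx
      _ = N := Real.rpow_one _
  have hbase : ∀ i ∈ Ωs f₀ f₁ T N z A' B' m₀ a₀ ε, i ∈ Ioc A' B' ∧ i.Prime ∧ i ≡ a₀ [MOD m₀] := by
    intro i hi
    unfold Ωs at hi
    rw [mem_filter, mem_filter, mem_filter] at hi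
    exact ⟨hi.1.1.1, hi.1.1.2, hi.1.2⟩
  have hndvd : ∀ i ∈ Ωs f₀ f₁ T N z A' B' m₀ a₀ ε, ∀ p : ℕ, p.Prime → p ≤ N → ¬ p ∣ i := by
    intro i hi p hp hpN hd
    obtain ⟨h1, h2, -⟩ := hbase i hi
    rw [mem_Ioc] at h1
    have := (Nat.prime_dvd_prime_iff_eq hp h2).1 hd
    omega
  -- the forbidden classes
  have F1 : ∀ i ∈ Ωs f₀ f₁ T N z A' B' m₀ a₀ ε, ∀ p : ℕ, p.Prime → z < p → (p : ℝ) < (N : ℝ) ^ ε →
      ¬ T p (ν i) := by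
    intro i hi p hp hz hlt hTp
    obtain ⟨b1, b2, b3⟩ := hbase i hi
    obtain ⟨c1, c2, c3, c4⟩ := hν i b1 b3
    unfold Ωs at hi
    rw [mem_filter, mem_filter] at hi
    obtain ⟨⟨-, hi1⟩, hi2⟩ := hi
    have hpN : p ≤ N := by
      have : (p : ℝ) ≤ N := hlt.le.trans (hNN ε (by linarith))
      exact_mod_cast this
    apply hi2 p (mem_P1.2 ⟨⟨hz, hpN⟩, hp, hlt⟩)
    rw [dvd_vw hp hz hpN]
    unfold cl
    rw [if_pos hlt, mem_clT hD.per hp (hD.nd p hp hz).1 c2]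
    refine ⟨fun hpi => ?_, hTp⟩
    have := (Nat.prime_dvd_prime_iff_eq hp b2).1 hpi
    rw [mem_Ioc] at b1
    omega
  have F1' : ∀ i ∈ Ωs f₀ f₁ T N z A' B' m₀ a₀ ε, ∀ p : ℕ, p.Prime →
      (p : ℤ) ∣ val f₁ (ν i) → (N : ℝ) ^ ε ≤ p := by
    intro i hi p hp hd
    obtain ⟨b1, b2, b3⟩ := hbase i hi
    obtain ⟨c1, c2, c3, c4⟩ := hν i b1 b3
    by_contra hlt
    push Not at hlt
    rcases Nat.lt_or_ge z p with hz | hz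
    · exact F1 i hi p hp hz hlt (hD.rt p hp hz _ (Or.inr hd))
    · exact c3 p hp hz hd
  have F3 : ∀ i ∈ Ωs f₀ f₁ T N z A' B' m₀ a₀ ε, ∀ p : ℕ, p.Prime → (N : ℝ) ^ ε ≤ p → p ≤ N →
      (p ∣ vw (cl f₀ T f₁ N ε) N z i ↔ (p : ℤ) ∣ val f₁ (ν i)) := by
    intro i hi p hp h1 h2
    have hz : z < p := by
      have : (z : ℝ) < p := by linarith
      exact_mod_cast this
    obtain ⟨b1, b2, b3⟩ := hbase i hi
    obtain ⟨c1, c2, c3, c4⟩ := hν i b1 b3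
    rw [dvd_vw hp hz h2]
    unfold cl
    rw [if_neg (not_lt.2 h1), mem_clF hp (hD.nd p hp hz).1 c2]
    constructor
    · rintro ⟨-, g, hg, h3⟩
      rw [mem_singleton] at hg
      rwa [hg] at h3
    · intro h3
      exact ⟨hndvd i hi p hp h2, f₁, mem_singleton_self _, h3⟩
  have hterm : ∀ i ∈ Ωs f₀ f₁ T N z A' B' m₀ a₀ ε, II N ε (vw (cl f₀ T f₁ N ε) N z i) *
      (1 - 1 / 2 * ∑ q ∈ pr N (1 / 4) (667 / 1000),
        (if q ∣ vw (cl f₀ T f₁ N ε) N z i then (1 : ℝ) else 0)) ≤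
      (if ν i ∈ Good f₀ f₁ T Q N z A B ε then (1 : ℝ) else 0) + (if ν i ∈ Sq f₁ N A B then (1 : ℝ) else 0) +
      1 / 2 * (if i ∈ Three f₀ f₁ T ν N z A' B' m₀ a₀ ε then (1 : ℝ) else 0) := by
    intro i hi
    obtain ⟨b1, hip, b3⟩ := hbase i hi
    obtain ⟨hiI, c2, c3, c4⟩ := hν i b1 b3
    have hpos1 : (0 : ℝ) ≤ (if ν i ∈ Good f₀ f₁ T Q N z A B ε then (1 : ℝ) else 0) := by split_ifs <;> norm_num
    have hpos2 : (0 : ℝ) ≤ (if ν i ∈ Sq f₁ N A B then (1 : ℝ) else 0) := by split_ifs <;> norm_num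
    have hpos3 : (0 : ℝ) ≤ (if i ∈ Three f₀ f₁ T ν N z A' B' m₀ a₀ ε then (1 : ℝ) else 0) := by
      split_ifs <;> norm_num
    by_cases hII : ∀ p ∈ pr N ε (1 / 4), ¬ p ∣ vw (cl f₀ T f₁ N ε) N z i
    swap
    · have : II N ε (vw (cl f₀ T f₁ N ε) N z i) = 0 := by
        unfold II
        rw [if_neg hII]
      rw [this, zero_mul]
      linarith
    have hII1 : II N ε (vw (cl f₀ T f₁ N ε) N z i) = 1 := by
      unfold II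
      rw [if_pos hII]
    rw [hII1, one_mul]
    have hsum : ∑ q ∈ pr N (1 / 4) (667 / 1000),
        (if q ∣ vw (cl f₀ T f₁ N ε) N z i then (1 : ℝ) else 0) =
        (((pr N (1 / 4) (667 / 1000)).filter (fun q => q ∣ vw (cl f₀ T f₁ N ε) N z i)).card : ℝ) := by
      rw [sum_boole]
    rw [hsum]
    set k := ((pr N (1 / 4) (667 / 1000)).filter (fun q => q ∣ vw (cl f₀ T f₁ N ε) N z i)).card with hk
    have hkr : (0 : ℝ) ≤ k := Nat.cast_nonneg _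
    obtain ⟨s1, s2⟩ := hsz (ν i) hiI
    obtain ⟨n, hn⟩ : ∃ n : ℕ, (n : ℤ) = val f₁ (ν i) := ⟨(val f₁ (ν i)).toNat, Int.toNat_of_nonneg (by omega)⟩
    have hn1 : 1 ≤ n := by omega
    have hn3 : n ≤ 3 * N ^ 2 := by
      have : (n : ℤ) ≤ 3 * (N : ℤ) ^ 2 := by omega
      exact_mod_cast this
    have hdn : ∀ p : ℕ, p ∣ n ↔ (p : ℤ) ∣ val f₁ (ν i) := by
      intro p
      rw [← hn]
      exact Int.natCast_dvd_natCast.symm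
    have F2 : ∀ p : ℕ, p.Prime → (p : ℤ) ∣ val f₁ (ν i) → (N : ℝ) ^ (1 / 4 : ℝ) ≤ p := by
      intro p hp hd
      by_contra hlt
      push Not at hlt
      have h1 := F1' i hi p hp hd
      have hpN : p ≤ N := by
        have : (p : ℝ) ≤ N := hlt.le.trans (hNN _ (by norm_num))
        exact_mod_cast this
      apply hII p
      · rw [mem_pr]
        exact ⟨⟨hp.one_lt.le, hpN⟩, hp, (le_tt_iff hN2 hp _).2 h1, (tt_lt_iff hN2 hp _).2 hlt⟩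
      · exact (F3 i hi p hp h1 hpN).2 hd
    by_cases hsq : ∃ p : ℕ, p.Prime ∧ (p : ℤ) ^ 2 ∣ val f₁ (ν i) ∧ (p : ℝ) < (N : ℝ) ^ (667 / 1000 : ℝ)
    · obtain ⟨p, hp1, hp2, hp3⟩ := hsq
      have hmem : ν i ∈ Sq f₁ N A B := by
        unfold Sq
        rw [mem_filter]
        exact ⟨hiI, p, hp1, hp2, F2 p hp1 ((dvd_pow_self _ two_ne_zero).trans hp2), hp3⟩
      rw [if_pos hmem]
      linarith
    · push Not at hsq
      have hkeq : k = ((pr N (1 / 4) (667 / 1000)).filter (fun q => q ∣ n)).card := by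
        rw [hk]
        congr 1
        apply filter_congr
        intro q hq
        rw [mem_pr] at hq
        have h1 := (le_tt_iff hN2 hq.2.1 _).1 hq.2.2.1
        rw [F3 i hi q hq.2.1 (by linarith) hq.1.2, hdn]
      rcases hWT n hn1 hn3 (fun p hp hd => F2 p hp ((hdn p).1 hd)) (fun p hp hd => hsq p hp (by
          have : ((p ^ 2 : ℕ) : ℤ) ∣ val f₁ (ν i) := (hdn _).1 hd
          exact_mod_cast this)) with h | h | h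
      · have hmem : ν i ∈ Good f₀ f₁ T Q N z A B ε := by
          unfold Good
          rw [mem_filter]
          refine ⟨hiI, ?_, ?_, F2, F1 i hi, c4⟩
          · rw [← c2, Int.toNat_natCast]
            exact hip
          · rw [← hn, Int.toNat_natCast]
            exact h
        rw [if_pos hmem]
        linarith
      · rw [← hkeq] at h
        have : (2 : ℝ) ≤ k := by exact_mod_cast h
        linarith
      · rw [← hkeq] at h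
        have hk1 : (k : ℝ) = 1 := by exact_mod_cast h.1
        obtain ⟨p₁, p₂, p₃, g1, g2, g3, g4, g5, g6⟩ := h.2
        have hmem : i ∈ Three f₀ f₁ T ν N z A' B' m₀ a₀ ε := by
          unfold Three
          rw [mem_filter]
          exact ⟨hi, p₁, p₂, p₃, g1, g2, g3, g4, g5, by rw [← g6]; exact hn.symm⟩
        rw [if_pos hmem, hk1]
        linarith
  refine (sum_le_sum hterm).trans ?_
  rw [sum_add_distrib, sum_add_distrib, ← mul_sum]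
  have hinj : ∀ x ∈ Ωs f₀ f₁ T N z A' B' m₀ a₀ ε, ∀ y ∈ Ωs f₀ f₁ T N z A' B' m₀ a₀ ε, ν x = ν y → x = y := by
    intro x hx y hy he
    obtain ⟨b1, b2, b3⟩ := hbase x hx
    obtain ⟨c1, c2, c3⟩ := hbase y hy
    have h1 := (hν x b1 b3).2.1
    have h2 := (hν y c1 c3).2.1
    rw [he, ← h2] at h1
    exact_mod_cast h1
  have hc : ∀ S : Finset ℕ, ∑ i ∈ Ωs f₀ f₁ T N z A' B' m₀ a₀ ε, (if i ∈ S then (1 : ℝ) else 0) ≤ S.card := by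
    intro S
    rw [sum_boole]
    have : (Ωs f₀ f₁ T N z A' B' m₀ a₀ ε).filter (fun i => i ∈ S) ⊆ S := fun x hx => (mem_filter.1 hx).2
    exact_mod_cast card_le_card this
  have hc' : ∀ S : Finset ℕ, ∑ i ∈ Ωs f₀ f₁ T N z A' B' m₀ a₀ ε, (if ν i ∈ S then (1 : ℝ) else 0) ≤ S.card := by
    intro S
    rw [sum_boole]
    have h1 : ((Ωs f₀ f₁ T N z A' B' m₀ a₀ ε).filter (fun i => ν i ∈ S)).card ≤ S.card := by
      apply card_le_card_of_injOn ν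
      · intro x hx
        exact (mem_filter.1 (mem_coe.1 hx)).2
      · intro x hx y hy he
        exact hinj x (mem_filter.1 (mem_coe.1 hx)).1 y (mem_filter.1 (mem_coe.1 hy)).1 he
    exact_mod_cast h1
  have h1 := hc' (Good f₀ f₁ T Q N z A B ε)
  have h2 := hc' (Sq f₁ N A B)
  have h3 := hc (Three f₀ f₁ T ν N z A' B' m₀ a₀ ε)
  linarith

open Classical in
/-- **Switching.** -/
theorem three_le {f₀ f₁ : ℤ × ℤ} {T : ℕ → ℤ → Prop} {ν : ℕ → ℕ} {N z κ A B A' B' M₀ c₀ M₁ c₁ : ℕ} {ε a b : ℝ}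
    (hN2 : 2 ≤ N) (hzN : (z : ℝ) < (N : ℝ) ^ ε) (hNA : N ≤ A') (hD : Dat f₀ f₁ T z κ)
    (hν : ∀ w ∈ Ioc A' B', w ≡ c₀ [MOD M₀] → ν w ∈ Ioc A B ∧ (w : ℤ) = val f₀ (ν w) ∧
      (M₁ : ℤ) ∣ (c₁ : ℤ) - val f₁ (ν w))
    (hab : ∀ n ∈ Ioc A B, a < (val f₁ (n : ℕ) : ℝ) ∧ (val f₁ (n : ℕ) : ℝ) ≤ b) (hf₁ : f₁.1 ≠ 0)
    (Ω : Finset (ℕ × ℕ))
    (hΩ : ∀ p₁ ∈ pr N (1 / 4) (667 / 1000), ∀ p₂ p₃ : ℕ, p₂.Prime → p₃.Prime → (N : ℝ) ^ (667 / 1000 : ℝ) ≤ p₂ →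
        p₂ ≤ p₃ → a < (p₁ * (p₂ * p₃) : ℕ) → ((p₁ * (p₂ * p₃) : ℕ) : ℝ) ≤ b →
        (p₁, p₂ * p₃) ∈ Ω) :
    (Three f₀ f₁ T ν N z A' B' M₀ c₀ ε).card ≤
      ((Ω.filter (fun x => x.1 * x.2 ≡ c₁ [MOD M₁])).filter (fun x =>
        (∀ p ∈ P1 N z ε, ¬ p ∣ vw (cl f₁ T f₀ N ε) N z (x.1 * x.2)) ∧
        ∀ p ∈ pr N ε (7 / 20), ¬ p ∣ vw (cl f₁ T f₀ N ε) N z (x.1 * x.2))).card := by
  have hNr : (1 : ℝ) < N := by exact_mod_cast (by omega : 1 < N)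
  refine le_trans (card_le_card (t := ((Ω.filter (fun x => x.1 * x.2 ≡ c₁ [MOD M₁])).filter (fun x =>
        (∀ p ∈ P1 N z ε, ¬ p ∣ vw (cl f₁ T f₀ N ε) N z (x.1 * x.2)) ∧
        ∀ p ∈ pr N ε (7 / 20), ¬ p ∣ vw (cl f₁ T f₀ N ε) N z (x.1 * x.2))).image
        (fun x => (val f₀ ((((x.1 * x.2 : ℕ) : ℤ) - f₁.2) / f₁.1)).toNat)) ?_) card_image_le
  intro w hw
  unfold Three at hw
  rw [mem_filter] at hw
  obtain ⟨hw1, p₁, p₂, p₃, g1, g2, g3, g4, g5, g6⟩ := hw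
  unfold Ωs at hw1
  rw [mem_filter, mem_filter, mem_filter] at hw1
  obtain ⟨⟨⟨k1, k3⟩, k4⟩, k5⟩ := hw1
  obtain ⟨n1, n2, n3⟩ := hν w k1 k4
  obtain ⟨s1, s2⟩ := hab (ν w) n1
  rw [mem_image]
  refine ⟨(p₁, p₂ * p₃), ?_, ?_⟩
  swap
  · show (val f₀ ((((p₁ * (p₂ * p₃) : ℕ) : ℤ) - f₁.2) / f₁.1)).toNat = w
    rw [← g6]
    have e : (val f₁ (ν w) - f₁.2) / f₁.1 = (ν w : ℤ) := by
      unfold CL.val
      rw [add_sub_cancel_right]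
      exact Int.mul_ediv_cancel_left _ hf₁
    rw [e, ← n2, Int.toNat_natCast]
  have hW : ((p₁ * (p₂ * p₃) : ℕ) : ℝ) = (val f₁ (ν w) : ℝ) := by
    rw [g6]
    push_cast
    ring
  have hwp : ∀ p : ℕ, p.Prime → p ≤ N → ¬ (p : ℤ) ∣ val f₀ (ν w) := by
    intro p hp hpN hd
    rw [← n2] at hd
    have h5 : p ∣ w := by exact_mod_cast hd
    have := (Nat.prime_dvd_prime_iff_eq hp k3).1 h5
    rw [mem_Ioc] at k1
    omega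
  rw [mem_filter, mem_filter]
  refine ⟨⟨hΩ p₁ g1 p₂ p₃ g2 g3 g4 g5 ?_ ?_, ?_⟩, ?_, ?_⟩
  · rw [hW]
    exact s1
  · rw [hW]
    exact s2
  · show p₁ * (p₂ * p₃) ≡ c₁ [MOD M₁]
    rw [Nat.modEq_iff_dvd, ← g6]
    exact n3
  · intro p hp
    obtain ⟨⟨h1, h2⟩, h3, h4⟩ := mem_P1.1 hp
    show ¬ p ∣ vw (cl f₁ T f₀ N ε) N z (p₁ * (p₂ * p₃))
    rw [dvd_vw h3 h1 h2]
    unfold cl
    rw [if_pos h4, mem_clT hD.per h3 (hD.nd p h3 h1).2 g6.symm]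
    rintro ⟨-, hTp⟩
    apply k5 p hp
    rw [dvd_vw h3 h1 h2]
    unfold cl
    rw [if_pos h4, mem_clT hD.per h3 (hD.nd p h3 h1).1 n2]
    refine ⟨fun hpw => ?_, hTp⟩
    apply hwp p h3 h2
    rw [← n2]
    exact_mod_cast hpw
  · intro p hp
    obtain ⟨⟨h1, h2⟩, h3, h4, h5⟩ := mem_pr.1 hp
    have h4' := (le_tt_iff hN2 h3 _).1 h4
    have hzp : z < p := by
      have : (z : ℝ) < p := by linarith
      exact_mod_cast this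
    show ¬ p ∣ vw (cl f₁ T f₀ N ε) N z (p₁ * (p₂ * p₃))
    rw [dvd_vw h3 hzp h2]
    unfold cl
    rw [if_neg (not_lt.2 h4'), mem_clF h3 (hD.nd p h3 hzp).2 g6.symm]
    rintro ⟨-, g, hg, hd⟩
    rw [mem_singleton] at hg
    subst hg
    exact hwp p h3 h2 hd

end Pool.Agent.H76.CP
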