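import Pool.Agent.H76.CP.Poly

/-!
# Chen's theorem for systems of polynomials: the singular series
-/

set_option autoImplicit false

namespace Pool.Agent.H76.CP

open Finset Polynomial Pool.Agent.H76.CL

theorem ST_mono {T : ℕ → ℤ → Prop} {B : ℕ} {ν : ℕ → ℕ} (h : ∀ p : ℕ, p.Prime → (rtT T p).card ≤ ν p)
    (hν : ∀ p : ℕ, p.Prime → ν p ≤ p) : ∏ p ∈ (Icc 1 B).filter Nat.Prime, (1 - (ν p : ℝ) / p) ≤ ST T B := by
  unfold ST
  apply prod_le_prod
  · intro p hp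
    have hp' := (mem_filter.1 hp).2
    have hp0 : (0 : ℝ) < p := by exact_mod_cast hp'.pos
    rw [sub_nonneg, div_le_one hp0]
    exact_mod_cast hν p hp'
  · intro p hp
    have hp' := (mem_filter.1 hp).2
    have hp0 : (0 : ℝ) < p := by exact_mod_cast hp'.pos
    have h1 : ((rtT T p).card : ℝ) ≤ ν p := by exact_mod_cast h p hp'
    have h2 := div_le_div_of_nonneg_right h1 hp0.le
    linarith

/-- the number of the zeros of a product of values -/
theorem card_filter_le (S : ℕ → ℤ → Prop) [∀ p : ℕ, DecidablePred (fun n : ℕ => S p n)] (p : ℕ) :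
    ((range p).filter (fun n : ℕ => S p n)).card ≤ p := by
  have := card_le_card (filter_subset (fun n : ℕ => S p n) (range p))
  rwa [card_range] at this

/-- the lower bound with the singular series -/
theorem sing_T (k : ℕ) : ∃ c' : ℝ, 0 < c' ∧ ∀ c : ℝ, 0 < c → ∀ x : ℕ, 4 ≤ x → ∀ (T : ℕ → ℤ → Prop) (ν : ℕ → ℕ),
    (∀ p : ℕ, p.Prime → (rtT T p).card ≤ ν p) → (∀ p : ℕ, p.Prime → ν p ≤ p) →
    c * c' * (∏ p ∈ (Icc 1 x).filter Nat.Prime, (1 - (ν p : ℝ) / p) / (1 - 1 / (p : ℝ)) ^ k) *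
      (x / Real.log x ^ k) ≤ c * x * ST T x := by
  obtain ⟨c', hc', hform⟩ := sing_form k
  refine ⟨c', hc', ?_⟩
  intro c hc x hx T ν hν1 hν2
  have h1 := hform x hx ν hν2
  have h2 := ST_mono (T := T) (B := x) (ν := ν) hν1 hν2
  calc c * c' * (∏ p ∈ (Icc 1 x).filter Nat.Prime, (1 - (ν p : ℝ) / p) / (1 - 1 / (p : ℝ)) ^ k) *
      (x / Real.log x ^ k) = c * (c' * (∏ p ∈ (Icc 1 x).filter Nat.Prime,
        (1 - (ν p : ℝ) / p) / (1 - 1 / (p : ℝ)) ^ k) * (x / Real.log x ^ k)) := by ring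
    _ ≤ c * (x * ∏ p ∈ (Icc 1 x).filter Nat.Prime, (1 - (ν p : ℝ) / p)) :=
        mul_le_mul_of_nonneg_left h1 hc.le
    _ ≤ c * (x * ST T x) := by
        apply mul_le_mul_of_nonneg_left _ hc.le
        exact mul_le_mul_of_nonneg_left h2 (Nat.cast_nonneg _)
    _ = _ := by ring

/-- a nonconstant irreducible polynomial is primitive -/
theorem irr_prim {h : ℤ[X]} (hi : Irreducible h) (hd : h.natDegree ≠ 0) {p : ℕ} (hp : p.Prime) :
    ¬ ∀ i, (p : ℤ) ∣ h.coeff i := by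
  intro hc
  have h1 := hi.isPrimitive hd
  have h2 : C (p : ℤ) ∣ h := (C_dvd_iff_dvd_coeff _ _).2 hc
  have h3 := h1 _ h2
  rw [Int.isUnit_iff] at h3
  have := hp.one_lt
  omega

end Pool.Agent.H76.CP
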