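import Pool.Agent.H76.CP.Abs
import Pool.Agent.H76.CL.Det

/-!
# Chen's theorem for systems of polynomials, two of them linear
-/

set_option autoImplicit false

namespace Pool.Agent.H76.CP

open Finset Polynomial Pool.Agent.H76.CL

/-- the forbidden classes of a set of polynomials -/
def TP (F : Finset ℤ[X]) (p : ℕ) (n : ℤ) : Prop := ∃ h ∈ F, (p : ℤ) ∣ h.eval n

/-- admissible sets of polynomials -/
def PAdm (F : Finset ℤ[X]) : Prop := ∀ p : ℕ, p.Prime → ∃ n : ℤ, ∀ h ∈ F, ¬ (p : ℤ) ∣ h.eval n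

theorem dvd_eval_iff {h : ℤ[X]} {p m n : ℤ} (hmn : p ∣ m - n) : p ∣ h.eval m ↔ p ∣ h.eval n := by
  have h1 : p ∣ h.eval m - h.eval n := hmn.trans (sub_dvd_eval_sub m n h)
  constructor
  · intro h2
    have := dvd_sub h2 h1
    rwa [sub_sub_cancel] at this
  · intro h2
    have := dvd_add h1 h2
    rwa [sub_add_cancel] at this

theorem TP_per (F : Finset ℤ[X]) (p : ℕ) (m n : ℤ) (h : (p : ℤ) ∣ m - n) : TP F p m ↔ TP F p n := by
  unfold TP
  constructor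
  · rintro ⟨g, hg, hd⟩
    exact ⟨g, hg, (dvd_eval_iff h).1 hd⟩
  · rintro ⟨g, hg, hd⟩
    exact ⟨g, hg, (dvd_eval_iff h).2 hd⟩

theorem card_roots_le {h : ℤ[X]} {p : ℕ} (hp : p.Prime) {n₀ : ℤ} (hn : ¬ (p : ℤ) ∣ h.eval n₀) :
    ((range p).filter (fun m : ℕ => (p : ℤ) ∣ h.eval (m : ℤ))).card ≤ h.natDegree := by
  classical
  have := Fact.mk hp
  set φ := Int.castRingHom (ZMod p) with hφ
  have hz : ∀ n : ℤ, (h.map φ).eval (n : ZMod p) = 0 ↔ (p : ℤ) ∣ h.eval n := by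
    intro n
    rw [eval_intCast_map]
    exact ZMod.intCast_zmod_eq_zero_iff_dvd _ _
  have h0 : h.map φ ≠ 0 := by
    intro h0
    apply hn
    rw [← hz, h0, eval_zero]
  have h1 : ((range p).filter (fun m : ℕ => (p : ℤ) ∣ h.eval (m : ℤ))).card ≤ (h.map φ).roots.toFinset.card := by
    apply card_le_card_of_injOn (fun m : ℕ => (m : ZMod p))
    · intro m hm
      rw [mem_coe, mem_filter] at hm
      rw [mem_coe, Multiset.mem_toFinset, mem_roots h0, IsRoot.def]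
      have := (hz (m : ℤ)).2 hm.2
      simpa using this
    · intro a ha b hb hab
      rw [mem_coe, mem_filter, mem_range] at ha hb
      have h2 : (a : ZMod p) = (b : ZMod p) := hab
      rw [ZMod.natCast_eq_natCast_iff] at h2
      have h3 : a % p = b % p := h2
      rwa [Nat.mod_eq_of_lt ha.1, Nat.mod_eq_of_lt hb.1] at h3
  calc _ ≤ (h.map φ).roots.toFinset.card := h1
    _ ≤ (h.map φ).roots.card := Multiset.toFinset_card_le _
    _ ≤ (h.map φ).natDegree := card_roots' _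
    _ ≤ h.natDegree := natDegree_map_le

theorem mem_rtT {T : ℕ → ℤ → Prop} {p m : ℕ} : m ∈ rtT T p ↔ m < p ∧ T p m := by
  classical
  unfold rtT
  rw [mem_filter, mem_range]

theorem rtT_card (F : Finset ℤ[X]) (hA : PAdm F) {p : ℕ} (hp : p.Prime) :
    (rtT (TP F) p).card ≤ ∑ h ∈ F, h.natDegree := by
  classical
  obtain ⟨n₀, hn₀⟩ := hA p hp
  have h1 : rtT (TP F) p ⊆ F.biUnion (fun h => (range p).filter (fun m : ℕ => (p : ℤ) ∣ h.eval (m : ℤ))) := by
    intro m hm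
    rw [mem_rtT] at hm
    obtain ⟨h2, g, hg, hd⟩ := hm
    rw [mem_biUnion]
    exact ⟨g, hg, mem_filter.2 ⟨mem_range.2 h2, hd⟩⟩
  refine (card_le_card h1).trans (card_biUnion_le.trans ?_)
  exact sum_le_sum fun h hh => card_roots_le hp (hn₀ h hh)

/-- an admissible class modulo the product of the small primes -/
theorem pcrt {F : Finset ℤ[X]} (hA : PAdm F) (z : ℕ) : ∃ a : ℕ,
    ∀ h ∈ F, ∀ p : ℕ, p.Prime → p ≤ z → ¬ (p : ℤ) ∣ h.eval (a : ℤ) := by
  classical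
  set t := (range (z + 1)).filter Nat.Prime with ht
  have key : ∀ p : ℕ, ∃ r : ℕ, p.Prime → ∀ h ∈ F, ¬ (p : ℤ) ∣ h.eval (r : ℤ) := by
    intro p
    by_cases hp : p.Prime
    · obtain ⟨r, hr⟩ := hA p hp
      obtain ⟨c, -, hc2⟩ := Pool.Agent.H76.CH.exists_class p hp.pos (-r)
      refine ⟨c, fun _ f hf h => hr f hf ?_⟩
      exact (dvd_eval_iff (by simpa [sub_eq_add_neg] using hc2)).1 h
    · exact ⟨0, fun h => absurd h hp⟩
  choose r hr using key
  have hpw : Set.Pairwise (t : Set ℕ) (Function.onFun Nat.Coprime (fun p : ℕ => p)) := by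
    intro p hp q hq hpq
    rw [mem_coe, ht, mem_filter] at hp hq
    exact (Nat.coprime_primes hp.2 hq.2).2 hpq
  obtain ⟨a, ha⟩ := Nat.chineseRemainderOfFinset r (fun p => p) t
    (fun p hp => (mem_filter.1 hp).2.ne_zero) hpw
  have hmem : ∀ p : ℕ, p.Prime → p ≤ z → p ∈ t := by
    intro p hp hpz
    rw [ht, mem_filter, mem_range]
    exact ⟨by omega, hp⟩
  refine ⟨a, ?_⟩
  intro f hf p hp hpz hd
  have h2 : a ≡ r p [MOD p] := ha p (hmem p hp hpz)
  apply hr p hp f hf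
  have h3 : (p : ℤ) ∣ (r p : ℤ) - a := Nat.modEq_iff_dvd.1 h2
  exact (dvd_eval_iff h3).2 hd

/-- the size of the values -/
theorem eval_le {h : ℤ[X]} {B D K n : ℕ} (hB : D + 1 < B) (hd : h.natDegree ≤ D) (hc : ∀ i, |h.coeff i| ≤ (B : ℤ) ^ K)
    (hn : n ≤ B) : |h.eval (n : ℤ)| < (B : ℤ) ^ (K + D + 1) := by
  have hBz : (1 : ℤ) ≤ B := by exact_mod_cast (by omega : 1 ≤ B)
  rw [eval_eq_sum_range]
  have h1 : ∀ i ∈ range (h.natDegree + 1), |h.coeff i * (n : ℤ) ^ i| ≤ (B : ℤ) ^ K * (B : ℤ) ^ D := by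
    intro i hi
    rw [mem_range] at hi
    rw [abs_mul]
    apply mul_le_mul (hc i) _ (abs_nonneg _) (by positivity)
    rw [abs_pow, Nat.abs_cast]
    calc (n : ℤ) ^ i ≤ (B : ℤ) ^ i := pow_le_pow_left₀ (Int.natCast_nonneg _) (by exact_mod_cast hn) i
      _ ≤ (B : ℤ) ^ D := pow_le_pow_right₀ hBz (by omega)
  have h2 : |∑ i ∈ range (h.natDegree + 1), h.coeff i * (n : ℤ) ^ i| ≤
      ∑ i ∈ range (h.natDegree + 1), (B : ℤ) ^ K * (B : ℤ) ^ D :=
    (abs_sum_le_sum_abs _ _).trans (sum_le_sum h1)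
  rw [sum_const, card_range, nsmul_eq_mul] at h2
  refine h2.trans_lt ?_
  have h3 : ((h.natDegree + 1 : ℕ) : ℤ) < B := by exact_mod_cast (by omega : h.natDegree + 1 < B)
  calc ((h.natDegree + 1 : ℕ) : ℤ) * ((B : ℤ) ^ K * (B : ℤ) ^ D) < B * ((B : ℤ) ^ K * (B : ℤ) ^ D) :=
        mul_lt_mul_of_pos_right h3 (by positivity)
    _ = _ := by ring

open Classical in
/-- the `n` in `(A, B]` for which `|f n|` is prime, `|g n|` has at most two prime factors, all of them `≥ B ^ (1 / 9)`,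
and all `|h n|`, `h ∈ F`, have at most `r` prime factors, all of them `≥ B ^ ε` -/
noncomputable def SysP (f g : ℤ[X]) (F : Finset ℤ[X]) (A B r : ℕ) (ε : ℝ) : Finset ℕ :=
  (Ioc A B).filter (fun n => (f.eval (n : ℤ)).natAbs.Prime ∧ (g.eval (n : ℤ)).natAbs.primeFactorsList.length ≤ 2 ∧
    (∀ q ∈ (g.eval (n : ℤ)).natAbs.primeFactors, (B : ℝ) ^ (1 / 9 : ℝ) ≤ q) ∧
    ∀ h ∈ F, (h.eval (n : ℤ)).natAbs.primeFactorsList.length ≤ r ∧
      ∀ q ∈ (h.eval (n : ℤ)).natAbs.primeFactors, (B : ℝ) ^ ε ≤ q)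

theorem mem_SysP {f g : ℤ[X]} {F : Finset ℤ[X]} {A B r n : ℕ} {ε : ℝ} : n ∈ SysP f g F A B r ε ↔
    (A < n ∧ n ≤ B) ∧ (f.eval (n : ℤ)).natAbs.Prime ∧ (g.eval (n : ℤ)).natAbs.primeFactorsList.length ≤ 2 ∧
    (∀ q ∈ (g.eval (n : ℤ)).natAbs.primeFactors, (B : ℝ) ^ (1 / 9 : ℝ) ≤ q) ∧
    ∀ h ∈ F, (h.eval (n : ℤ)).natAbs.primeFactorsList.length ≤ r ∧
      ∀ q ∈ (h.eval (n : ℤ)).natAbs.primeFactors, (B : ℝ) ^ ε ≤ q := by
  classical
  unfold SysP
  rw [mem_filter, mem_Ioc]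

/-- **Chen's theorem for systems of polynomials, two of them linear.** -/
theorem chen_poly (D K : ℕ) (hD : 2 ≤ D) (hK1 : 1 ≤ K) (θ : ℝ) (hθ : 0 < θ) :
    ∃ ε c : ℝ, 0 < ε ∧ 0 < c ∧ ∃ r B₀ : ℕ, ∀ B : ℕ, B₀ ≤ B → ∀ A : ℕ, (A : ℝ) + θ * B ≤ B →
      ∀ F : Finset ℤ[X], ∑ h ∈ F, h.natDegree ≤ D → (∀ h ∈ F, ∀ i, |h.coeff i| ≤ (B : ℤ) ^ K) →
      ∀ f ∈ F, ∀ g ∈ F, f.natDegree = 1 → g.natDegree = 1 → |f.coeff 1| ≤ K → |g.coeff 1| ≤ K →
      |f.coeff 0| ≤ K * B → |g.coeff 0| ≤ K * B → f ≠ g → f ≠ -g → PAdm F →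
      c * B * ST (TP F) B ≤ ((SysP f g F A B r ε).card : ℝ) := by
  obtain ⟨z, hz, ε, c, hε0, hc, B₀, hB₀⟩ := chen_TA (D - 1) K (by omega) hK1 θ hθ
  have ev1 : ∀ᶠ B : ℕ in Filter.atTop, (z : ℝ) + 2 ≤ (B : ℝ) ^ ε :=
    (Filter.Tendsto.comp (tendsto_rpow_atTop hε0) tendsto_natCast_atTop_atTop).eventually_ge_atTop _
  obtain ⟨B₁, hB₁⟩ := Filter.eventually_atTop.1 ev1
  refine ⟨ε, c, hε0, hc, ⌈((K : ℝ) + D + 1) / ε⌉₊, B₀ + B₁ + D + 16, ?_⟩
  intro B hB A hAB F hdeg hcoe f hf g hg hf1 hg1 hfK hgK hf0 hg0 hfg hfg' hAdm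
  have g1 := hB₁ B (by omega)
  have hBr : (16 : ℝ) ≤ B := by exact_mod_cast (by omega : 16 ≤ B)
  have hB0 : (0 : ℝ) < B := by linarith
  set f₀ : ℤ × ℤ := (f.coeff 1, f.coeff 0) with hf₀
  set f₁ : ℤ × ℤ := (g.coeff 1, g.coeff 0) with hf₁
  have hrep : ∀ h : ℤ[X], h.natDegree = 1 → h = C (h.coeff 1) * X + C (h.coeff 0) := fun h hh =>
    eq_X_add_C_of_natDegree_le_one hh.le
  have heval : ∀ h : ℤ[X], h.natDegree = 1 → ∀ n : ℤ, h.eval n = CL.val (h.coeff 1, h.coeff 0) n := by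
    intro h hh n
    conv_lhs => rw [hrep h hh]
    simp only [eval_add, eval_mul, eval_C, eval_X]
    rfl
  have hne : ∀ h : ℤ[X], h.natDegree = 1 → h.coeff 1 ≠ 0 := by
    intro h hh h0
    have h1 : h.leadingCoeff = h.coeff 1 := by rw [leadingCoeff, hh]
    rw [h0, leadingCoeff_eq_zero] at h1
    rw [h1] at hh
    simp at hh
  have hnp : ∀ h ∈ F, h.natDegree = 1 → |h.coeff 1| ≤ K → ∀ p : ℕ, p.Prime → z < p → ¬ (p : ℤ) ∣ h.coeff 1 := by
    intro h hh h1 hK p hp hzp hd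
    have h2 := Int.le_of_dvd (abs_pos.2 (hne h h1)) ((dvd_abs _ _).2 hd)
    have h3 : (p : ℤ) ≤ K := h2.trans hK
    omega
  have hDat : Dat f₀ f₁ (TP F) z (D - 1) := by
    refine ⟨TP_per F, fun p hp hzp => ⟨hnp f hf hf1 hfK p hp hzp, hnp g hg hg1 hgK p hp hzp⟩, ?_, ?_⟩
    · intro p hp hzp n hn
      rcases hn with hn | hn
      · refine ⟨f, hf, ?_⟩
        rw [heval f hf1]
        exact hn
      · refine ⟨g, hg, ?_⟩
        rw [heval g hg1]
        exact hn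
    · intro p hp hzp
      have := (rtT_card F hAdm hp).trans hdeg
      omega
  have hprim : ∀ h ∈ F, h.natDegree = 1 → ∀ p : ℕ, p.Prime → ¬ ((p : ℤ) ∣ h.coeff 1 ∧ (p : ℤ) ∣ h.coeff 0) := by
    rintro h hh h1 p hp ⟨h2, h3⟩
    obtain ⟨n, hn⟩ := hAdm p hp
    apply hn h hh
    rw [heval h h1]
    unfold CL.val
    exact dvd_add (h2.mul_right _) h3
  have hdet : f₀.1 * f₁.2 - f₁.1 * f₀.2 ≠ 0 := by
    apply det_ne (hne f hf1) (hne g hg1) (hprim f hf hf1) (hprim g hg hg1)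
    · rintro ⟨h1, h2⟩
      apply hfg
      rw [hrep f hf1, hrep g hg1, h1, h2]
    · rintro ⟨h1, h2⟩
      apply hfg'
      rw [hrep f hf1, hrep g hg1, h1, h2]
      simp only [map_neg]
      ring
  obtain ⟨a, ha⟩ := pcrt hAdm z
  have hmain := (hB₀ B (by omega) A hAB f₀ f₁ (TP F) a hDat ⟨hne f hf1, hfK⟩ ⟨hne g hg1, hgK⟩ hf0 hg0 hdet
    (by
      intro p hp hpz
      constructor
      · have := ha f hf p hp hpz
        rwa [heval f hf1] at this
      · have := ha g hg p hp hpz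
        rwa [heval g hg1] at this)).2
  refine hmain.trans ?_
  have hsub : GoodA f₀ f₁ (TP F) (fun n => ((primorial z : ℕ) : ℤ) ∣ (n : ℤ) - a) z A B ε ⊆
      SysP f g F A B ⌈((K : ℝ) + D + 1) / ε⌉₊ ε := by
    intro n hn
    rw [mem_GoodA] at hn
    rw [mem_SysP]
    obtain ⟨⟨a1, a2⟩, a3, a4, a5, a6, a7⟩ := hn
    have hlarge : ∀ h ∈ F, ∀ p : ℕ, p.Prime → (p : ℤ) ∣ h.eval (n : ℤ) → (B : ℝ) ^ ε ≤ p := by
      intro h hh p hp hd
      by_contra hlt
      push Not at hlt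
      rcases Nat.lt_or_ge z p with hzp | hzp
      · exact a6 p hp hzp hlt ⟨h, hh, hd⟩
      · apply ha h hh p hp hzp
        have h1 : (p : ℤ) ∣ (n : ℤ) - a :=
          dvd_trans (by exact_mod_cast (hp.dvd_primorial_iff.2 hzp)) a7
        exact (dvd_eval_iff h1).1 hd
    refine ⟨⟨a1, a2⟩, ?_, ?_, ?_, ?_⟩
    · rw [heval f hf1]
      exact a3
    · rw [heval g hg1]
      exact a4
    · intro q hq
      apply a5 q (Nat.prime_of_mem_primeFactors hq)
      have := Int.natCast_dvd.2 (Nat.dvd_of_mem_primeFactors hq)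
      rwa [heval g hg1] at this
    · intro h hh
      have hq1 : ∀ q ∈ (h.eval (n : ℤ)).natAbs.primeFactors, (B : ℝ) ^ ε ≤ q := fun q hq =>
        hlarge h hh q (Nat.prime_of_mem_primeFactors hq) (Int.natCast_dvd.2 (Nat.dvd_of_mem_primeFactors hq))
      refine ⟨?_, hq1⟩
      have hne0 : h.eval (n : ℤ) ≠ 0 := by
        intro h0
        obtain ⟨p, hp, hpB⟩ : ∃ p : ℕ, p.Prime ∧ (p : ℝ) < (B : ℝ) ^ ε := by
          refine ⟨2, Nat.prime_two, ?_⟩
          have : (6 : ℝ) ≤ z := by exact_mod_cast (by omega : 6 ≤ z)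
          push_cast
          linarith
        have := hlarge h hh p hp (by rw [h0]; exact dvd_zero _)
        linarith
      have hone : 1 ≤ (B : ℝ) ^ ε := by
        have : (0 : ℝ) ≤ z := Nat.cast_nonneg _
        linarith
      refine few (Int.natAbs_ne_zero.2 hne0) ?_ ?_ hone
      · intro q hq hd
        exact hlarge h hh q hq (Int.natCast_dvd.2 hd)
      · have hdh : h.natDegree ≤ D := (single_le_sum (f := fun h : ℤ[X] => h.natDegree)
          (fun _ _ => Nat.zero_le _) hh).trans hdeg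
        have t0 := eval_le (n := n) (by omega : D + 1 < B) hdh (hcoe h hh) a2
        have hb2 : ((h.eval (n : ℤ)).natAbs : ℝ) < (B : ℝ) ^ (K + D + 1) := by
          have t2 : ((|h.eval (n : ℤ)| : ℤ) : ℝ) < (((B : ℤ) ^ (K + D + 1) : ℤ) : ℝ) := by exact_mod_cast t0
          rw [Nat.cast_natAbs]
          push_cast at t2 ⊢
          exact t2
        refine hb2.trans_le ?_
        rw [← Real.rpow_natCast, ← Real.rpow_natCast, ← Real.rpow_mul hB0.le]
        apply Real.rpow_le_rpow_of_exponent_le (by linarith)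
        have h3 := Nat.le_ceil (((K : ℝ) + D + 1) / ε)
        rw [div_le_iff₀ hε0] at h3
        push_cast
        nlinarith
  exact_mod_cast card_le_card hsub

/-- an inadmissible set of polynomials -/
theorem not_padm {F : Finset ℤ[X]} {D : ℕ} (hdeg : ∑ h ∈ F, h.natDegree ≤ D) (hA : ¬ PAdm F) :
    ∃ p : ℕ, p.Prime ∧ rtT (TP F) p = range p ∧ (p ≤ D ∨ ∃ h ∈ F, ∀ i, (p : ℤ) ∣ h.coeff i) := by
  classical
  unfold PAdm at hA
  push Not at hA
  obtain ⟨p, hp, h⟩ := hA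
  have h1 : rtT (TP F) p = range p := by
    ext m
    rw [mem_rtT, mem_range]
    exact ⟨fun hm => hm.1, fun hm => ⟨hm, h m⟩⟩
  refine ⟨p, hp, h1, ?_⟩
  by_contra hcon
  push Not at hcon
  obtain ⟨h2, h3⟩ := hcon
  have := Fact.mk hp
  set φ := Int.castRingHom (ZMod p) with hφ
  have h4 : ∀ g ∈ F, g.map φ ≠ 0 := by
    intro g hg h0
    obtain ⟨i, hi⟩ := h3 g hg
    apply hi
    have := congrArg (fun q => coeff q i) h0
    simp only [coeff_map, coeff_zero] at this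
    exact (ZMod.intCast_zmod_eq_zero_iff_dvd _ _).1 this
  have h5 : (rtT (TP F) p).card ≤ ∑ g ∈ F, g.natDegree := by
    have h6 : rtT (TP F) p ⊆ F.biUnion (fun h => (range p).filter (fun m : ℕ => (p : ℤ) ∣ h.eval (m : ℤ))) := by
      intro m hm
      rw [mem_rtT] at hm
      obtain ⟨h2, g, hg, hd⟩ := hm
      rw [mem_biUnion]
      exact ⟨g, hg, mem_filter.2 ⟨mem_range.2 h2, hd⟩⟩
    refine (card_le_card h6).trans (card_biUnion_le.trans ?_)
    apply sum_le_sum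
    intro g hg
    have h7 : ((range p).filter (fun m : ℕ => (p : ℤ) ∣ g.eval (m : ℤ))).card ≤ (g.map φ).roots.toFinset.card := by
      apply card_le_card_of_injOn (fun m : ℕ => (m : ZMod p))
      · intro m hm
        rw [mem_coe, mem_filter] at hm
        rw [mem_coe, Multiset.mem_toFinset, mem_roots (h4 g hg), IsRoot.def]
        have h8 : (g.map φ).eval ((m : ℤ) : ZMod p) = 0 := by
          rw [eval_intCast_map]
          exact (ZMod.intCast_zmod_eq_zero_iff_dvd _ _).2 hm.2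
        simpa using h8
      · intro a ha b hb hab
        rw [mem_coe, mem_filter, mem_range] at ha hb
        have h2 : (a : ZMod p) = (b : ZMod p) := hab
        rw [ZMod.natCast_eq_natCast_iff] at h2
        have h3 : a % p = b % p := h2
        rwa [Nat.mod_eq_of_lt ha.1, Nat.mod_eq_of_lt hb.1] at h3
    calc _ ≤ (g.map φ).roots.toFinset.card := h7
      _ ≤ (g.map φ).roots.card := Multiset.toFinset_card_le _
      _ ≤ (g.map φ).natDegree := card_roots' _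
      _ ≤ g.natDegree := natDegree_map_le
  rw [h1, card_range] at h5
  omega

end Pool.Agent.H76.CP
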